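import Mathlib
import Pool.Agent.V5helper69.ECC.Defs
import Pool.Agent.V5helper69.ECC.PolyAlg

/-!
# GlobalECC has a constant-constant bicriteria approximation

With factors `(8, 8)`: at most `8` times the optimal number of mistakes, using at most `8` times
the budget.
-/

set_option autoImplicit false

namespace Pool.Agent.Results.MP_120f76_lc.ConstantBicriteria

open Pool.Agent.NPC Pool.Agent.V5helper69.ECC

theorem result : HasBicriteria 8 8 := by
  obtain ⟨A, hA, h⟩ := exists_algorithm
  refine ⟨A, hA, fun I => ⟨sol (pick I.V I.C I.E I.b) I.C I.E, h _ _ _ _, ?_⟩⟩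
  have hasg := sol_isAsg (pick I.V I.C I.E I.b) I.V I.C I.E I.nodup_C I.C_ne
  have happ := approx I.V I.C I.E I.b I.nodup_V I.nodup_C
    (fun e he => ⟨I.edge_sub e he, I.edge_col e he⟩)
  have hext : ∀ (L : ℕ → List ℕ), IsAsg I.V I.C L →
      I.extra (fun v => (L v).toFinset) = extraL I.V L := by
    intro L hL
    unfold Inst.extra extraL
    congr 1
    refine List.map_congr_left fun v hv => ?_
    rw [List.toFinset_card_of_nodup (hL v hv).1]
  have hmis : ∀ (L : ℕ → List ℕ), I.mistakes (fun v => (L v).toFinset) = mistL I.E L := by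
    intro L
    unfold Inst.mistakes mistL
    congr 1
    refine List.filter_congr fun e _ => ?_
    unfold bad
    rw [Bool.eq_iff_iff]
    simp
  refine ⟨?_, ?_, ?_⟩
  · intro v hv
    obtain ⟨_, h2, h3⟩ := hasg v hv
    refine ⟨?_, fun c hc => h3 c (List.mem_toFinset.1 hc)⟩
    obtain ⟨c, hc⟩ := List.exists_mem_of_ne_nil _ h2
    exact ⟨c, List.mem_toFinset.2 hc⟩
  · rw [hext _ hasg]
    exact happ.1
  · intro S hS hb
    have hL : IsAsg I.V I.C (fun v => (S v).toList) := by
      intro v hv
      obtain ⟨h1, h2⟩ := hS v hv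
      refine ⟨Finset.nodup_toList _, ?_, fun c hc => h2 c (Finset.mem_toList.1 hc)⟩
      obtain ⟨c, hc⟩ := h1
      exact List.ne_nil_of_mem (Finset.mem_toList.2 hc)
    have e1 := hext _ hL
    have e2 := hmis (fun v => (S v).toList)
    simp only [Finset.toList_toFinset] at e1 e2
    rw [hmis, show I.mistakes S = mistL I.E (fun v => (S v).toList) from e2]
    exact happ.2 _ hL (by rw [← e1]; exact hb)

end Pool.Agent.Results.MP_120f76_lc.ConstantBicriteria
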